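import Mathlib

/-!
# Project NT (helper906): MP_a95293_nt (n-term abc) and MP_7ecdd4_nt (strong n-conjecture)

Targets. Let `n ≥ 3`, `1/n < M < 3/(3n-1)`, `κ = n - 1/M` (so `0 < κ < 1/3`). The number of the `n`-tuples of
integers with sum zero and height `H ≤ X`, `H > rad(x_1 ... x_n) ^ M`, is
`X ^ (1/M - 1) * exp ((c + o(1)) (κ log X / log log X) ^ (r/(r+1)))`, where
(a) `r = n - 2` for the tuples with gcd 1 and without vanishing subsums, (b) `r = 1` for the pairwise coprime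
tuples; `c = ((r+1)/r)^((2r+1)/(r+1)) * t^(1/(r+1))`, `t = binomial(n, r)` (for `r = 1`: `c = √(8n)`).
Note `1/M - 1 = n - 1 - κ`.

Idea. A prime divides at most `r` of the coordinates. The gain `|x_1 ... x_n| / rad` must be `≥ H ^ κ`
or so. Let `D_i ∣ x_i`; the number of the tuples with `D_i ∣ x_i` is about `X^(n-1) / ∏ D_i`, and
`∏ D_i = gain * rad`. Sum this over all `D` with `gain ≥ X^κ` (Rankin's method); the local factor of the generating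
function `∑_D gain^(-u) / rad` is `1 + (1/p) (t / (p^u - 1)^r + ...)`, since the exponents of `p` in the `D_i`, `i` in
a set with `r` elements, are arbitrary.
-/

set_option autoImplicit false

namespace Pool.Agent.N906.NT

open Finset Filter Topology

/-! ### Definitions -/

/-- the product of the coordinates -/
def pr {n : ℕ} (D : Fin n → ℕ) : ℕ := ∏ i, D i

/-- the radical of the product -/
def rr {n : ℕ} (D : Fin n → ℕ) : ℕ := ∏ p ∈ (pr D).primeFactors, p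

/-- the gain -/
noncomputable def gn {n : ℕ} (D : Fin n → ℕ) : ℝ := (pr D : ℝ) / rr D

/-- `Δ` is a simplicial complex on `Fin n`, its faces have at most `r ≥ 1` elements, and it has `t ≥ 1` faces
with `r` elements -/
def Cx {n : ℕ} (Δ : Finset (Finset (Fin n))) (r t : ℕ) : Prop :=
  1 ≤ r ∧ 1 ≤ t ∧ ∅ ∈ Δ ∧ (∀ s ∈ Δ, ∀ s' ⊆ s, s' ∈ Δ) ∧ (∀ s ∈ Δ, s.card ≤ r) ∧
    (Δ.filter fun s => s.card = r).card = t

/-- the set of the coordinates divisible by a prime is a face of `Δ` -/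
def Tp {n : ℕ} (Δ : Finset (Finset (Fin n))) (D : Fin n → ℕ) : Prop :=
  (∀ i, 1 ≤ D i) ∧ ∀ p : ℕ, p.Prime → (univ.filter fun i => p ∣ D i) ∈ Δ

/-- the product is squareful -/
def Sq {n : ℕ} (D : Fin n → ℕ) : Prop := ∀ p : ℕ, p.Prime → p ∣ pr D → p ^ 2 ∣ pr D

/-- the complex of all sets with at most `r` elements -/
def Dl (n r : ℕ) : Finset (Finset (Fin n)) := univ.filter fun s => s.card ≤ r

/-- the constant `((r+1)/r)^((2r+1)/(r+1)) t^(1/(r+1))` -/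
noncomputable def cst (r t : ℕ) : ℝ :=
  (((r : ℝ) + 1) / r) ^ ((2 * (r : ℝ) + 1) / (r + 1)) * (t : ℝ) ^ (1 / ((r : ℝ) + 1))

/-- absolute values -/
def ab {n : ℕ} (x : Fin n → ℤ) : Fin n → ℕ := fun i => (x i).natAbs

/-- no vanishing subsum -/
def NV {n : ℕ} (x : Fin n → ℤ) : Prop :=
  ∀ I : Finset (Fin n), I.Nonempty → I ≠ univ → ∑ i ∈ I, x i ≠ 0

/-! ### Generating functions (general `Δ`) -/

/-- EUPN. The logarithm of the Euler product. `ℓ = log (1/u)`. (i) `p ≤ u^(-r) ℓ^(-r-1) = y₁`: each term is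
`O(ℓ)`, and there are `O(y₁ / ℓ)` of them (Chebyshev), total `O(u^(-r) ℓ^(-r-1))`. (ii) `y₁ < p ≤ exp (δ / u)` with a
small fixed `δ`: `log (1 + x) ≤ x`, `p^(θu) ≤ 1 + ε'`, `p^u - 1 ≥ u log p`, and
`∑_{p > y} 1 / (p (log p)^r) = (1 + O(1 / log y)) / (r (log y)^r)` (partial summation from
`∑_{p ≤ x} log p / p = log x + O(1)`, or from the prime number theorem), `log y₁ ~ r ℓ`; the other terms have
`(p^u - 1)^(-j)`, `1 ≤ j ≤ r - 1`, and are smaller by a factor `O(δ)`. (iii) `p > exp (δ / u)`: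
`p^(θu) / (p^u - 1) ≤ C_δ p^(-u/2)` and `∑_{p > exp(δ/u)} p^(-1-u/2) = O_δ(1)`.
For `r = 1` this is (almost) `Pool.Agent.N72.SZ.eupq`. -/
def S_EUPN : Prop := ∀ (r t N : ℕ) (μ θ ε : ℝ), 1 ≤ r → 1 ≤ t → 0 < μ → 0 ≤ θ → θ ≤ 1 / 2 → 0 < ε →
  ∃ u₀ : ℝ, 0 < u₀ ∧ u₀ < 1 / 2 ∧ ∀ u : ℝ, 0 < u → u < u₀ → ∀ s : Finset ℕ, (∀ p ∈ s, p.Prime) →
    ∑ p ∈ s, Real.log (1 + μ * (p : ℝ) ^ (θ * u - 1) * (t / ((p : ℝ) ^ u - 1) ^ r +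
      ((r : ℝ) - 1) * N * (1 / ((p : ℝ) ^ u - 1) + 1 / ((p : ℝ) ^ u - 1) ^ (r - 1)))) ≤
      (1 + ε) * μ * t / (r * (r * (u * Real.log (1 / u))) ^ r)

/-- GUPN. From EUPN with `N = 2 ^ (n + 1)`. The sum is at most the product over the primes of
`1 + ∑_e μ p^(-u |e|) p^(-(1 - (1 + θ) u))`, over the exponent vectors `e ≠ 0` with support in `Δ` and
`|e| = ∑ e_i ≥ 2`; `∑_{supp e = S, |e| ≥ 2} p^(-u (|e| - 1))` is `1/(y-1)` for `|S| = 1` and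
`y / (y-1)^m = 1/(y-1)^m + 1/(y-1)^(m-1)` for `|S| = m ≥ 2`, with `y = p^u`. -/
def S_GUPN : Prop := ∀ (n : ℕ) (Δ : Finset (Finset (Fin n))) (r t : ℕ) (μ θ ε : ℝ), Cx Δ r t →
  0 < μ → 0 ≤ θ → θ ≤ 1 / 2 → 0 < ε →
  ∃ u₀ : ℝ, 0 < u₀ ∧ u₀ < 1 / 2 ∧ ∀ u : ℝ, 0 < u → u < u₀ → ∀ F : Finset (Fin n → ℕ),
    (∀ D ∈ F, Tp Δ D ∧ Sq D) →
    ∑ D ∈ F, μ ^ (pr D).primeFactors.card * gn D ^ (-u) * (rr D : ℝ) ^ (-(1 - θ * u)) ≤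
      Real.exp ((1 + ε) * μ * t / (r * (r * (u * Real.log (1 / u))) ^ r))

/-- GLOWN. Take the primes `u^(-(r+ε)) ≤ p ≤ exp (δ / u)` and for each such `p` nothing or an exponent
vector whose support is a face with exactly `r` elements (with `|e| ≥ 2`, `e_i ≤ E` large); the local sum is
`≥ 1 + (1 - ε'') t / (p (u log p)^r)`. Compare `Pool.Agent.N407.SZ.glowq`. -/
def S_GLOWN : Prop := ∀ (n : ℕ) (Δ : Finset (Finset (Fin n))) (r t : ℕ) (ε : ℝ), Cx Δ r t →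
  0 < ε → ε < 1 / 3 →
  ∃ u₀ : ℝ, 0 < u₀ ∧ u₀ < 1 / 2 ∧ ∀ u : ℝ, 0 < u → u < u₀ → ∃ F : Finset (Fin n → ℕ),
    (∀ D ∈ F, Tp Δ D ∧ Sq D ∧ ∀ p ∈ (pr D).primeFactors, u ^ (-((r : ℝ) + ε)) ≤ (p : ℝ)) ∧
    Real.exp ((1 - 3 * ε) * t / (r * (r * (u * Real.log (1 / u))) ^ r)) ≤
      ∑ D ∈ F, gn D ^ (-u) / (rr D : ℝ)

/-- WINN. From GUPN and GLOWN, as `Pool.Agent.N407.SZ.winq` (there `r = 1`, `t = 2`). Put
`S(u) = t / (r (r u log(1/u))^r)` and take `u` with `r S(u) = u Z'`, `Z' = (1 - ε') Z` (or explicitly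
`u = (t / (r^r Z ℓ^r))^(1/(r+1))` with `ℓ = log Z / (r + 1)`); `u Z + S(u) = ((r+1)/r) u Z`, which is
`cst r t (Z / log Z)^(r/(r+1))` up to `1 + o(1)`. Remove from the sum of GLOWN the `D` with `log gn D > Z` (GUPN at
`(1 - η) u`), those with `log gn D < (1 - ε) Z'` (GUPN at `(1 + η) u`), those with `log rr D > ε Z` (GUPN with
`θ = 1/2`), those with more than `C S(u)` primes (GUPN with a large `μ`); the latter, with all primes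
`≥ u^(-(r+ε))`, gives `∑ 1/p ≤ c`. `√Z < u^(-(r+ε))`. -/
def S_WINN : Prop := ∀ (n : ℕ) (Δ : Finset (Finset (Fin n))) (r t : ℕ) (ε c : ℝ), Cx Δ r t →
  0 < ε → ε < 1 → 0 < c → ∃ Z₀ : ℝ, 1 < Z₀ ∧ ∀ Z : ℝ, Z₀ ≤ Z →
  ∃ F : Finset (Fin n → ℕ),
    (∀ D ∈ F, Tp Δ D ∧ Sq D ∧ (∀ p ∈ (pr D).primeFactors, √Z < (p : ℝ)) ∧
      Real.log (gn D) ≤ Z ∧ Real.log (rr D : ℝ) ≤ ε * Z ∧
      ∑ p ∈ (pr D).primeFactors, (1 : ℝ) / p ≤ c) ∧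
    Real.exp ((1 - ε) * cst r t * (Z / Real.log Z) ^ ((r : ℝ) / (r + 1))) ≤
      ∑ D ∈ F, (1 : ℝ) / (rr D : ℝ)

/-! ### The upper bound -/

/-- RED. Take `D` with `D_i ∣ E_i` and `gn D ≥ T` and `∏ D_i` minimal. If a prime `p` divides `∏ D_i` then replace one
`D_i` with `p ∣ D_i` by `D_i / p`: the gain is divided by `p`, or it does not change if `p ∥ ∏ D_i`. -/
def S_RED : Prop := ∀ (n : ℕ) (Δ : Finset (Finset (Fin n))) (r t : ℕ), Cx Δ r t →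
  ∀ (E : Fin n → ℕ) (T : ℝ), Tp Δ E → 1 ≤ T → T ≤ gn E →
  ∃ D : Fin n → ℕ, (∀ i, D i ∣ E i) ∧ Tp Δ D ∧ Sq D ∧ T ≤ gn D ∧
    ∀ p : ℕ, p.Prime → p ∣ pr D → gn D / p < T

/-- SEQ (counting with congruences, no condition on the size of the moduli). Order the indices `k ≠ l` as
`k_1, ..., k_{n-1}`, and `k_n = l`. Let `m_j = lcm (D_{k_j}, gcd (D_{k_{j+1}}, ..., D_{k_n}))`. Given `x_{k_1}, ..., x_{k_{j-1}}`,
`x_{k_j}` is divisible by `D_{k_j}` and is in a given class modulo `gcd (D_{k_{j+1}}, ..., D_{k_n})` (all the later coordinates are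
divisible by it, the sum is zero), so it is in at most one class modulo `m_j`: the number of tuples is
at most `∏ (2 B_{k_j} / m_j + 1)`. Since `lcm(a,b) gcd(a,b) = a b`, `∏_{j < n} m_j = ∏ D_i` (telescoping; the gcd of all
the `D_i` is 1). If all `m_j ≤ B_{k_j}`: at most `3^(n-1) ∏ B / ∏ D`. At most one `m_j` can be `> B_{k_j}` (as
`∏ D_i ≤ β²`), and then the bound is `3^(n-1) ∏ B / β`. -/
def S_SEQ : Prop := ∀ n : ℕ, 2 ≤ n → ∃ C : ℝ, 0 < C ∧ ∀ (D : Fin n → ℕ) (l : Fin n) (B : Fin n → ℝ) (β : ℝ),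
  (∀ i, 1 ≤ D i) → (∀ p : ℕ, p.Prime → ∃ i, ¬ p ∣ D i) → 1 ≤ β → (∀ k, k ≠ l → β ≤ B k) →
  (pr D : ℝ) ≤ β ^ 2 →
  ∀ F : Finset (Fin n → ℤ), (∀ x ∈ F, ∑ i, x i = 0 ∧ (∀ i, (D i : ℤ) ∣ x i) ∧
    ∀ k, k ≠ l → |(x k : ℝ)| ≤ B k) →
    (F.card : ℝ) ≤ C * (∏ k ∈ univ.erase l, B k) * (1 / (pr D : ℝ) + 1 / β)

/-- PRM (large primes). The largest coordinate is at most the sum of the others, so (if `F` is not empty)
`B k ≥ X / (2n)` for some `k ≠ l`. (1) `p² ≤ B i`; take a dependent coordinate `d ≠ i` with `B d ≥ X / (2n)`: at most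
`(2 B_i / p²) ∏_{k ≠ i, d} 3 B_k`. (2) `p ≤ B i, B j`; if there is `d ≠ i, j` with `B d ≥ X / (2n)`: at most
`(2 B_i / p) (2 B_j / p) ∏_{k ≠ i, j, d} 3 B_k`. Otherwise `B_j ≥ X / (2n)`, and the sum of the `x_k`, `k ≠ i, j`, is divisible
by `p` and is not zero, so some `|x_k| ≥ p / n`, `k ≠ i, j`, for this `k` `B_k ≥ p / n`, and given the
other coordinates `x_k` is in one class modulo `p`: at most `(2 B_k / p + 1) ≤ (2 + n) B_k / p` values; `2 B_i / p` values of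
`x_i`; `x_j` is dependent. -/
def S_PRM : Prop := ∀ n : ℕ, 3 ≤ n → ∃ C : ℝ, 0 < C ∧ ∀ (X : ℝ) (B : Fin n → ℝ) (p : ℕ) (l : Fin n),
  p.Prime → (∀ k, 1 ≤ B k ∧ B k ≤ X) → B l = X →
  ((∀ (i : Fin n) (F : Finset (Fin n → ℤ)), (∀ x ∈ F, ∑ k, x k = 0 ∧
      (∀ k, B k / 2 < |(x k : ℝ)| ∧ |(x k : ℝ)| ≤ B k) ∧ (p : ℤ) ^ 2 ∣ x i) →
      (F.card : ℝ) ≤ C * (∏ k, B k) / (X * (p : ℝ) ^ 2)) ∧
   (∀ (i j : Fin n) (F : Finset (Fin n → ℤ)), i ≠ j → (∀ x ∈ F, ∑ k, x k = 0 ∧ NV x ∧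
      (∀ k, B k / 2 < |(x k : ℝ)| ∧ |(x k : ℝ)| ≤ B k) ∧ (p : ℤ) ∣ x i ∧ (p : ℤ) ∣ x j) →
      (F.card : ℝ) ≤ C * (∏ k, B k) / (X * (p : ℝ) ^ 2)))

/-- UPA, from SEQ and GUPN (`μ = 1`, `θ = 0`). `β = min_{k ≠ l} B k ≥ ∏ B / X^(n-1) = 2^n T X^(1-κ)` and
`∏ D = gn D * rr D ≤ (gn D)² ≤ T² X^(2η) ≤ T X^(1-κ) ≤ β`, so SEQ gives `≤ 2 C 2^n T X^(n-1-κ) / (gn D * rr D)` for each
`D` (a finite set of `D`; `D_i ≤ X` since `x_i ≠ 0`, or restrict to one `D` for each `x`). Then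
`T ∑_{gn D ≥ T} 1 / (gn D * rr D) ≤ T^u ∑ gn D ^ (-u) / rr D ≤ exp (u κ log X + (1 + ε') t / (r (r u log(1/u))^r))`,
with the `u` as in WINN (`Z = κ log X`). -/
def S_UPA : Prop := ∀ (n r : ℕ) (κ η ε : ℝ), 1 ≤ r → r + 2 ≤ n → 0 < κ → 0 < η → κ + η ≤ 1 / 2 → 0 < ε →
  ∃ X₀ : ℝ, 3 < X₀ ∧ ∀ (X T : ℝ) (B : Fin n → ℝ) (l : Fin n) (F : Finset (Fin n → ℤ)), X₀ ≤ X →
    1 ≤ T → T ≤ X ^ κ → (∀ k, 1 ≤ B k ∧ B k ≤ X) → B l = X →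
    ∏ k, B k = 2 ^ n * T * X ^ ((n : ℝ) - κ) →
    (∀ x ∈ F, ∑ i, x i = 0 ∧ (∀ k, x k ≠ 0 ∧ |(x k : ℝ)| ≤ B k) ∧
      ∃ D : Fin n → ℕ, (∀ i, (D i : ℤ) ∣ x i) ∧ Tp (Dl n r) D ∧ Sq D ∧ T ≤ gn D ∧
        gn D ≤ T * X ^ η) →
    (F.card : ℝ) ≤ Real.exp (((n : ℝ) - 1 - κ) * Real.log X +
      (1 + ε) * cst r (n.choose r) *
        (κ * Real.log X / Real.log (Real.log X)) ^ ((r : ℝ) / (r + 1)))

/-- UPB, from SEQ, PRM and GUPN (with a fixed small `u`). `β` as in UPA. (i) `gn D ≤ T²`: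
`∏ D ≤ T⁴ ≤ (T X^(1-κ))² ≤ β²`, so SEQ gives `≤ C 2^n T X^(n-1-κ) (1 / (gn D * rr D) + 1 / β)`; the sum of the first
terms over `gn D > T X^η` is at most `C' X^(n-1-κ) T^u X^(-(1-u) η)`; `T / β ≤ X^(κ-1)`, and the number of the `D` with
`gn D ≤ T²` is at most `C_u T^(2(1+u)) ≤ C_u X^(2κ(1+u))` (from GUPN, as `rr D ≤ gn D`); `3κ < 1`.
(ii) `gn D > T²`: `gn D` is a prime `q` (if `q` is the least prime dividing `pr D` then `q > gn D / T > T`, and if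
`gn D ≠ q` then `gn D / q ≥ q > T`, a contradiction), and `D` is `q²` at one place or `q` at two places: PRM, and
`∑_{q > T X^η} 1/q² ≤ 2 / (T X^η)`. -/
def S_UPB : Prop := ∀ (n r : ℕ) (κ η : ℝ), 1 ≤ r → r + 2 ≤ n → 0 < κ → κ < 1 / 3 → 0 < η →
  ∃ X₀ : ℝ, 3 < X₀ ∧ ∀ (X T : ℝ) (B : Fin n → ℝ) (l : Fin n) (F : Finset (Fin n → ℤ)), X₀ ≤ X →
    1 ≤ T → T ≤ X ^ κ → (∀ k, 1 ≤ B k ∧ B k ≤ X) → B l = X →
    ∏ k, B k = 2 ^ n * T * X ^ ((n : ℝ) - κ) →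
    (∀ x ∈ F, ∑ i, x i = 0 ∧ NV x ∧ (∀ k, B k / 2 < |(x k : ℝ)| ∧ |(x k : ℝ)| ≤ B k) ∧
      ∃ D : Fin n → ℕ, (∀ i, (D i : ℤ) ∣ x i) ∧ Tp (Dl n r) D ∧ Sq D ∧ T * X ^ η < gn D ∧
        ∀ p : ℕ, p.Prime → p ∣ pr D → gn D / p < T) →
    (F.card : ℝ) ≤ X ^ ((n : ℝ) - 1 - κ)

/-- UP, from RED, UPA, UPB. The `x` with a vanishing subsum: at most `2^n (2X+1)^(n-2) ≤ X^(n-1-κ)`. The others are
divided into the boxes `B_k / 2 < |x_k| ≤ B_k`, `B_k = X / 2^(i_k)` (`B_k ≥ 1`; `B_l = X` for some `l`), at most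
`(2 + 2 log X)^n` of them (absorbed by `ε`). `T = ∏ B / (2^n X^(n-κ)) ≤ X^κ`; `gn (ab x) = ∏ |x_k| / rr (ab x) ≥ T`. If `T < 1`:
at most `∏_{k ≠ l} (2 B_k + 1) ≤ 3^n ∏ B / X ≤ 6^n X^(n-1-κ)` tuples. If `T ≥ 1`: RED gives `D`, then UPA if
`gn D ≤ T X^η`, UPB otherwise. -/
def S_UP : Prop := ∀ (n r : ℕ) (κ ε : ℝ), 1 ≤ r → r + 2 ≤ n → 0 < κ → κ < 1 / 3 → 0 < ε →
  ∃ X₀ : ℝ, 3 < X₀ ∧ ∀ (X : ℝ) (F : Finset (Fin n → ℤ)), X₀ ≤ X →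
    (∀ x ∈ F, ∑ i, x i = 0 ∧ (∀ i, x i ≠ 0) ∧ Tp (Dl n r) (ab x) ∧ (∀ i, |(x i : ℝ)| ≤ X) ∧
      (∃ i, X / 2 < |(x i : ℝ)|) ∧ (rr (ab x) : ℝ) ≤ X ^ ((n : ℝ) - κ)) →
    (F.card : ℝ) ≤ Real.exp (((n : ℝ) - 1 - κ) * Real.log X +
      (1 + ε) * cst r (n.choose r) *
        (κ * Real.log X / Real.log (Real.log X)) ^ ((r : ℝ) / (r + 1)))

/-! ### The lower bound -/

/-- LAT (exact number of the solutions of the congruences modulo a common multiple `M`). The map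
`(ℤ/M')-vectors`: `y_i = c_i + D_i z_i`, `z_i` modulo `M / D_i`; the homomorphism `z ↦ ∑ D_i z_i` from
`∏ ℤ/(M/D_i)` to `ℤ/M` has image generated by `g = gcd (D_i)`, so all fibres over the multiples of `g` have
`(∏ M / D_i) / (M / g) = M^(n-1) g / ∏ D_i` elements. -/
def S_LAT : Prop := ∀ (n : ℕ) (D : Fin n → ℕ) (c : Fin n → ℤ) (M : ℕ) (l : Fin n) (F : Finset (Fin n → ℤ)),
  1 ≤ M → (∀ i, 1 ≤ D i ∧ D i ∣ M) → ((univ.gcd D : ℕ) : ℤ) ∣ ∑ i, c i →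
  (∀ y, y ∈ F ↔ (∑ i, y i = 0 ∧ (∀ k, k ≠ l → 0 ≤ y k ∧ y k < M) ∧ ∀ i, (D i : ℤ) ∣ y i - c i)) →
  F.card * ∏ i, D i = M ^ (n - 1) * univ.gcd D

/-- BOX. From LAT (the conditions are periodic modulo `M` in each `x_k`, `k ≠ l`; an interval `(Y/2, Y]` contains
between `Y/(2M) - 1 ≥ Y/(4M)` and `Y/(2M) + 1 ≤ Y/M` complete systems of representatives). -/
def S_BOX : Prop := ∀ (n : ℕ) (D : Fin n → ℕ) (c : Fin n → ℤ) (M : ℕ) (l : Fin n) (Y : ℝ)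
    (F : Finset (Fin n → ℤ)), 1 ≤ M → 4 * M ≤ Y → (∀ i, 1 ≤ D i ∧ D i ∣ M) →
  ((univ.gcd D : ℕ) : ℤ) ∣ ∑ i, c i →
  (∀ y, y ∈ F ↔ (∑ i, y i = 0 ∧ (∀ k, k ≠ l → Y / 2 < (y k : ℝ) ∧ (y k : ℝ) ≤ Y) ∧
    ∀ i, (D i : ℤ) ∣ y i - c i)) →
  (Y / 4) ^ (n - 1) * (univ.gcd D : ℕ) / (∏ i, D i : ℕ) ≤ F.card ∧
    (F.card : ℝ) ≤ Y ^ (n - 1) * (univ.gcd D : ℕ) / (∏ i, D i : ℕ)

/-- LOWN (many tuples with given `D`), from BOX. Let `c` be a tuple of pairwise coprime integers with sum zero,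
`c_0 = 3` (`(3,-1,-1,-1,1,-1,...)` for even `n`, `(3,-2,-1,1,-1,...)` for odd `n`). `K₀ =` the product of the primes
`p ≤ C₁`, `p ≠ 3`; `C₁ ≤ C₀`. `Y = X / n`, and the `x` with `Y/2 < x_k ≤ Y`, `x_k ≡ c_k` modulo `3 K₀`, `D_k ∣ x_k` for `k ≠ 0`, and
`3^(j+1) D_0 ∣ x_0 = - ∑_{k ≠ 0} x_k` (so `NV x`, `Y ≤ |x_0| ≤ X`). BOX with `D'_k = 3 K₀ D_k`, `D'_0 = 3^(j+1) D_0`, gcd `3`,
`M = 3^(j+1) K₀ pr D`: at least `(Y/4)^(n-1) 3 / ∏ D'` of them. Remove (by BOX at most `Y^(n-1) 3 / (∏ D' p)` etc.):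
(R1) those with `p D_i ∣ x_i` for some prime `p ∣ pr D` and some `i` (factor `1/p`);
(R2) for the primes `p ≤ P` not dividing `3 K₀ pr D` those with `p² ∣ x_i`, or `p ∣ x_i, p ∣ x_j`, `i ≠ j` (`1/p²`);
(R3) for the primes `p > P` those with `p ∣ x_i`, `p ∣ x_j`, `i ≠ j`: if `p M ≤ Y/4` as before (`1/p²`); if `p M > Y/4`:
at most `2 Y^(n-1) / p²` (without using `D`), in total at most `16 n² Y^(n-1) M / Y`, small as `M ∏ D' ≤ c Y`.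
In each case the gcd of the new moduli is again 3 (for each `p` at least two `D_k` are not
divisible by `p`). For large `C₁` and small `c₁` at least half remain. -/
def S_LOWN : Prop := ∀ n r : ℕ, 1 ≤ r → r + 2 ≤ n → ∃ c₁ c C₀ : ℝ, 0 < c₁ ∧ 0 < c ∧ 5 < C₀ ∧
  ∀ (X z P : ℝ) (j : ℕ) (D : Fin n → ℕ), Tp (Dl n r) D → Sq D → C₀ ≤ z →
    (∀ p ∈ (pr D).primeFactors, z < (p : ℝ) ∧ (p : ℝ) ≤ P) → z ≤ P →
    ∑ p ∈ (pr D).primeFactors, (1 : ℝ) / p ≤ c₁ →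
    C₀ * ((3 : ℝ) ^ j * pr D) ^ 2 * P ^ 2 ≤ X →
  ∃ F : Finset (Fin n → ℤ),
    (∀ x ∈ F, ∑ i, x i = 0 ∧ (∀ i, x i ≠ 0) ∧ NV x ∧ Tp (Dl n r) (ab x) ∧ (∀ i, |(x i : ℝ)| ≤ X) ∧
      (∃ i, X / n ≤ |(x i : ℝ)|) ∧
      (3 : ℝ) ^ j * gn D ≤ gn (ab x) ∧
      ∀ p : ℕ, p.Prime → z < (p : ℝ) → (p : ℝ) ≤ P →
        (p ∣ pr D → ∀ i, (x i).natAbs.factorization p = (D i).factorization p) ∧
        (¬ p ∣ pr D → ∑ i, (x i).natAbs.factorization p ≤ 1)) ∧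
    c * X ^ (n - 1) / ((3 : ℝ) ^ j * pr D) ≤ F.card

/-- LO, from WINN and LOWN. `T = A n^n X^κ`, `Z = log T`; `F₀` from WINN with `Δ = Dl n r`, `t = n.choose r`, a small
`ε'` and `c = c₁`; `z = √Z`, `P = exp (ε' Z)`. For `D ∈ F₀` let `j` be minimal with `3^j gn D ≥ T`, `3^j gn D ≤ 3 T`;
`3^j pr D = 3^j gn D rr D ≤ 3 T exp (ε' Z)`, so LOWN applies (`κ < 1/3`). Its `x` satisfy
`rr (ab x) = ∏ |x_i| / gn (ab x) ≤ X^n / T`, so `A rr (ab x) ≤ (X/n)^(n-κ) ≤ |x_i|^(n-κ)`. For different `D ∈ F₀` the sets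
are disjoint (`v_p(D_i) = v_p(x_i)` if `∑_k v_p(x_k) ≥ 2` and `z < p ≤ P`, and `= 0` otherwise). So the number is at
least `∑ c X^(n-1) / (3 T rr D)`. -/
def S_LO : Prop := ∀ (n r : ℕ) (κ A ε : ℝ), 1 ≤ r → r + 2 ≤ n → 0 < κ → κ < 1 / 3 → 1 ≤ A →
  0 < ε → ε < 1 → ∃ X₀ : ℝ, 3 < X₀ ∧ ∀ X : ℝ, X₀ ≤ X → ∃ F : Finset (Fin n → ℤ),
    (∀ x ∈ F, ∑ i, x i = 0 ∧ (∀ i, x i ≠ 0) ∧ NV x ∧ Tp (Dl n r) (ab x) ∧ (∀ i, |(x i : ℝ)| ≤ X) ∧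
      ∃ i, A * (rr (ab x) : ℝ) ≤ |(x i : ℝ)| ^ ((n : ℝ) - κ)) ∧
    Real.exp (((n : ℝ) - 1 - κ) * Real.log X +
      (1 - ε) * cst r (n.choose r) *
        (κ * Real.log X / Real.log (Real.log X)) ^ ((r : ℝ) / (r + 1))) ≤ F.card

end Pool.Agent.N906.NT
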