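import Mathlib
import Pool.Agent.N906.NT.Stm
import Pool.Agent.N340.NT_GLOWN
import Pool.Agent.N539.NT_GUPN
import Pool.Agent.N475.NT_EUPN
import Pool.Agent.N327.NT_WINN
import Pool.Agent.N475.NT_RED
import Pool.Agent.N543.NT_SEQ
import Pool.Agent.N130.NT_PRM
import Pool.Agent.N755.NT_UPA
import Pool.Agent.N434.NT_UPB
import Pool.Agent.N130.NT_UP
import Pool.Agent.N353.NT_LAT
import Pool.Agent.N353.NT_BOX
import Pool.Agent.N49.NT_LOWN
import Pool.Agent.N521.NT_LO

/-!
# Project NT: all statements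
-/

set_option autoImplicit false

namespace Pool.Agent.N906.NT

theorem gupn_all : S_GUPN := Pool.Agent.N539.NT.gupn Pool.Agent.N475.NT.eupn

theorem winn_all : S_WINN := Pool.Agent.N327.NT.winn gupn_all Pool.Agent.N340.NT.GLOWN.glown

theorem up_all : S_UP := Pool.Agent.N130.NT.up Pool.Agent.N475.NT.red
  (Pool.Agent.N755.NT.upa Pool.Agent.N543.NT.seq gupn_all)
  (Pool.Agent.N434.NT.upb Pool.Agent.N543.NT.seq Pool.Agent.N130.NT.prm gupn_all)

theorem lo_all : S_LO := Pool.Agent.N521.NT.lo winn_all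
  (Pool.Agent.N49.NT.lown (Pool.Agent.N353.NT.box Pool.Agent.N353.NT.lat))

end Pool.Agent.N906.NT
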